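import Mathlib

set_option autoImplicit false

namespace Pool.Agent.Results.MP_289501_co.SuperlinearNeighborhoods

open Finset

set_option linter.unusedSectionVars false

variable {α : Type} [DecidableEq α] {ι : Type} [DecidableEq ι]

/-- There is an involution moving only points of the sets `A i` (`i ∈ I`) such that every `A i`
contains a point and its different image. -/
def Paired (I : Finset ι) (A : ι → Finset α) : Prop :=
  ∃ σ : α → α, (∀ v, σ (σ v) = v) ∧ (∀ v, (∀ i ∈ I, v ∉ A i) → σ v = v) ∧
    ∀ i ∈ I, ∃ v ∈ A i, σ v ∈ A i ∧ σ v ≠ v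

/-- The indices of the other sets meeting `A i`. -/
def N (I : Finset ι) (A : ι → Finset α) (i : ι) : Finset ι :=
  I.filter (fun j => j ≠ i ∧ (A i ∩ A j).Nonempty)

lemma paired_mono (I : Finset ι) (A B : ι → Finset α) (h : ∀ i ∈ I, A i ⊆ B i)
    (hA : Paired I A) : Paired I B := by
  obtain ⟨σ, h1, h2, h3⟩ := hA
  refine ⟨σ, h1, fun v hv => h2 v (fun i hi hvi => hv i hi (h i hi hvi)), fun i hi => ?_⟩
  obtain ⟨v, hv, h4, h5⟩ := h3 i hi
  exact ⟨v, h i hi hv, h i hi h4, h5⟩

lemma paired_ext (I : Finset ι) (A : ι → Finset α) (i : ι) (hi : i ∈ I) (x y : α)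
    (hx : x ∈ A i) (hy : y ∈ A i) (hxy : x ≠ y)
    (h : Paired (I.filter (fun j => ¬ (x ∈ A j ∧ y ∈ A j))) (fun j => A j \ {x, y})) :
    Paired I A := by
  obtain ⟨σ, h1, h2, h3⟩ := h
  have hσx : σ x = x := h2 x (fun j _ => by simp)
  have hσy : σ y = y := h2 y (fun j _ => by simp)
  refine ⟨fun v => if v = x then y else if v = y then x else σ v, ?_, ?_, ?_⟩
  · intro v
    by_cases hvx : v = x
    · subst hvx
      simp [hxy.symm]
    · by_cases hvy : v = y
      · subst hvy
        simp [hvx]
      · have h5 : σ v ≠ x := by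
          intro h6
          apply hvx
          rw [← h1 v, h6, hσx]
        have h6 : σ v ≠ y := by
          intro h7
          apply hvy
          rw [← h1 v, h7, hσy]
        simp [hvx, hvy, h5, h6, h1]
  · intro v hv
    have hvx : v ≠ x := fun h => hv i hi (h ▸ hx)
    have hvy : v ≠ y := fun h => hv i hi (h ▸ hy)
    simp only [hvx, hvy, if_false]
    apply h2
    intro j hj
    simp only [mem_filter] at hj
    simp only [mem_sdiff, not_and]
    exact fun h => absurd h (hv j hj.1)
  · intro j hj
    by_cases hb : x ∈ A j ∧ y ∈ A j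
    · refine ⟨x, hb.1, ?_, ?_⟩
      · simp [hb.2]
      · simp [hxy.symm]
    · obtain ⟨v, hv, h4, h5⟩ := h3 j (by simp only [mem_filter]; exact ⟨hj, hb⟩)
      simp only [mem_sdiff, mem_insert, mem_singleton, not_or] at hv h4
      refine ⟨v, hv.1, ?_, ?_⟩
      · simp only [hv.2.1, hv.2.2, if_false]
        exact h4.1
      · simp only [hv.2.1, hv.2.2, if_false]
        exact h5


/-- The degree of a point. -/
def dg (I : Finset ι) (A : ι → Finset α) (v : α) : ℕ := (I.filter (fun j => v ∈ A j)).card

/-- Hall's condition from reciprocals of the degrees. -/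
lemma hall (I : Finset ι) (A : ι → Finset α)
    (h : ∀ i ∈ I, (2 : ℚ) ≤ ∑ v ∈ A i, 1 / (dg I A v : ℚ)) : Paired I A := by
  have hcnt : ∀ G ⊆ I, 2 * G.card ≤ (G.biUnion A).card := by
    intro G hG
    have h1 : (2 : ℚ) * G.card ≤ ∑ i ∈ G, ∑ v ∈ A i, 1 / (dg I A v : ℚ) := by
      calc (2 : ℚ) * G.card = ∑ i ∈ G, (2 : ℚ) := by rw [Finset.sum_const]; simp [mul_comm]
        _ ≤ _ := Finset.sum_le_sum (fun i hi => h i (hG hi))
    have h2 : ∑ i ∈ G, ∑ v ∈ A i, 1 / (dg I A v : ℚ) =
        ∑ v ∈ G.biUnion A, ∑ i ∈ G, (if v ∈ A i then 1 / (dg I A v : ℚ) else 0) := by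
      rw [Finset.sum_comm]
      refine Finset.sum_congr rfl (fun i hi => ?_)
      rw [← Finset.sum_filter, Finset.filter_mem_eq_inter,
        Finset.inter_eq_right.mpr (Finset.subset_biUnion_of_mem A hi)]
    have h3 : ∀ v ∈ G.biUnion A,
        ∑ i ∈ G, (if v ∈ A i then 1 / (dg I A v : ℚ) else 0) ≤ 1 := by
      intro v hv
      rw [← Finset.sum_filter, Finset.sum_const, nsmul_eq_mul]
      have h4 : (G.filter (fun i => v ∈ A i)).card ≤ dg I A v :=
        Finset.card_le_card (Finset.filter_subset_filter _ hG)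
      have h5 : 0 < dg I A v := by
        obtain ⟨i, hi, hvi⟩ := Finset.mem_biUnion.mp hv
        apply lt_of_lt_of_le _ h4
        exact Finset.card_pos.mpr ⟨i, Finset.mem_filter.mpr ⟨hi, hvi⟩⟩
      rw [mul_one_div, div_le_one (by exact_mod_cast h5)]
      exact_mod_cast h4
    have h6 : (2 : ℚ) * G.card ≤ (G.biUnion A).card := by
      calc (2 : ℚ) * G.card ≤ _ := h1
        _ = _ := h2
        _ ≤ ∑ v ∈ G.biUnion A, (1 : ℚ) := Finset.sum_le_sum h3
        _ = _ := by rw [Finset.sum_const]; simp
    exact_mod_cast h6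
  have hall := (Finset.all_card_le_biUnion_card_iff_exists_injective
    (fun p : {i // i ∈ I} × Bool => A (p.1 : ι))).mp ?_
  · obtain ⟨f, hf, hft⟩ := hall
    classical
    -- the partner map
    let P : α → ι → Bool → Prop := fun v i b => ∃ h : i ∈ I, v = f (⟨i, h⟩, b)
    have huniq : ∀ v i b j c, P v i b → P v j c → i = j ∧ b = c := by
      rintro v i b j c ⟨hi, h1⟩ ⟨hj, h2⟩
      have := hf (h1.symm.trans h2)
      simp only [Prod.mk.injEq, Subtype.mk.injEq] at this
      exact this
    let σ : α → α := fun v => if h : ∃ p : {i // i ∈ I} × Bool, v = f p then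
      f ((Classical.choose h).1, !(Classical.choose h).2) else v
    have hσf : ∀ p : {i // i ∈ I} × Bool, σ (f p) = f (p.1, !p.2) := by
      intro p
      have h : ∃ q : {i // i ∈ I} × Bool, f p = f q := ⟨p, rfl⟩
      have h1 : σ (f p) = f ((Classical.choose h).1, !(Classical.choose h).2) := by
        simp only [σ]
        rw [dif_pos h]
      have h2 : Classical.choose h = p := (hf (Classical.choose_spec h)).symm
      rw [h1, h2]
    have hσn : ∀ v, (¬ ∃ p : {i // i ∈ I} × Bool, v = f p) → σ v = v := by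
      intro v h
      simp only [σ]
      rw [dif_neg h]
    refine ⟨σ, ?_, ?_, ?_⟩
    · intro v
      by_cases h : ∃ p : {i // i ∈ I} × Bool, v = f p
      · obtain ⟨p, rfl⟩ := h
        rw [hσf, hσf]
        simp
      · rw [hσn v h, hσn v h]
    · intro v hv
      apply hσn
      rintro ⟨p, rfl⟩
      exact hv _ p.1.2 (hft p)
    · intro i hi
      refine ⟨f (⟨i, hi⟩, true), hft _, ?_, ?_⟩
      · rw [hσf]; exact hft _
      · rw [hσf]
        intro h
        have := hf h
        simp at this
  · intro s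
    have h1 : s.card ≤ 2 * (s.image (fun p => (p.1 : ι))).card := by
      have hs : s ⊆ (s.image Prod.fst) ×ˢ (Finset.univ : Finset Bool) := by
        intro p hp
        rw [Finset.mem_product]
        exact ⟨Finset.mem_image_of_mem _ hp, Finset.mem_univ _⟩
      have h2 := Finset.card_le_card hs
      rw [Finset.card_product] at h2
      have h3 : (s.image (fun p => (p.1 : ι))).card = (s.image Prod.fst).card := by
        rw [show s.image (fun p => (p.1 : ι)) =
          (s.image Prod.fst).image (fun q : {i // i ∈ I} => (q : ι)) by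
            rw [Finset.image_image]; rfl]
        exact Finset.card_image_of_injective _ Subtype.val_injective
      rw [h3]
      simp only [Finset.card_univ, Fintype.card_bool] at h2
      omega
    have h2 : s.biUnion (fun p : {i // i ∈ I} × Bool => A (p.1 : ι)) =
        (s.image (fun p => (p.1 : ι))).biUnion A := by
      rw [Finset.image_biUnion]
    rw [h2]
    refine h1.trans (hcnt _ ?_)
    intro i hi
    obtain ⟨p, _, rfl⟩ := Finset.mem_image.mp hi
    exact p.1.2

/-- Removing pairs contained in at least `t` sets. -/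
lemma merge (t : ℕ) (ht : 1 ≤ t) (Φ : ℕ → ℕ → Prop)
    (hmono : ∀ a k k', k' ≤ k → Φ a k → Φ a k')
    (hhit : ∀ a k k', k' + t ≤ k → Φ (a + 1) k → Φ a k')
    (hbase : ∀ (I : Finset ι) (A : ι → Finset α),
      (∀ i ∈ I, Φ (A i).card (N I A i).card) →
      (∀ x y, x ≠ y → (I.filter (fun j => x ∈ A j ∧ y ∈ A j)).card < t) → Paired I A) :
    ∀ (m : ℕ) (I : Finset ι) (A : ι → Finset α), I.card = m →
      (∀ i ∈ I, Φ (A i).card (N I A i).card) → Paired I A := by
  intro m
  induction m using Nat.strong_induction_on with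
  | _ m ih =>
  intro I A hm hI
  by_cases hall : ∀ x y, x ≠ y → (I.filter (fun j => x ∈ A j ∧ y ∈ A j)).card < t
  · exact hbase I A hI hall
  push Not at hall
  obtain ⟨x, y, hxy, hc⟩ := hall
  set R := I.filter (fun j => x ∈ A j ∧ y ∈ A j) with hR
  have hRne : R.Nonempty := Finset.card_pos.mp (by omega)
  obtain ⟨i, hi⟩ := hRne
  have hi' := Finset.mem_filter.mp hi
  apply paired_ext I A i hi'.1 x y hi'.2.1 hi'.2.2 hxy
  set I' := I.filter (fun j => ¬ (x ∈ A j ∧ y ∈ A j)) with hI'
  have hRI' : ∀ l ∈ R, l ∉ I' := by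
    intro l hl hl'
    exact (Finset.mem_filter.mp hl').2 (Finset.mem_filter.mp hl).2
  have hlt : I'.card < m := by
    rw [← hm]
    apply Finset.card_lt_card
    refine ⟨Finset.filter_subset _ _, fun h => hRI' i hi (h hi'.1)⟩
  refine ih I'.card hlt I' (fun j => A j \ {x, y}) rfl ?_
  intro j hj
  have hjI : j ∈ I := (Finset.mem_filter.mp hj).1
  have hjb : ¬ (x ∈ A j ∧ y ∈ A j) := (Finset.mem_filter.mp hj).2
  have hsub : N I' (fun j => A j \ {x, y}) j ⊆ N I A j := by
    intro l hl
    simp only [N, mem_filter] at hl ⊢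
    refine ⟨(Finset.mem_filter.mp hl.1).1, hl.2.1, ?_⟩
    obtain ⟨v, hv⟩ := hl.2.2
    simp only [mem_inter, mem_sdiff] at hv
    exact ⟨v, by simp only [mem_inter]; exact ⟨hv.1.1, hv.2.1⟩⟩
  by_cases hxyj : x ∈ A j ∨ y ∈ A j
  · have hRN : R ⊆ N I A j := by
      intro l hl
      have hl' := Finset.mem_filter.mp hl
      simp only [N, mem_filter]
      refine ⟨hl'.1, fun h => hRI' l hl (h ▸ hj), ?_⟩
      rcases hxyj with h | h
      · exact ⟨x, by simp [h, hl'.2.1]⟩
      · exact ⟨y, by simp [h, hl'.2.2]⟩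
    have hdisj : Disjoint (N I' (fun j => A j \ {x, y}) j) R := by
      rw [Finset.disjoint_left]
      intro l hl hlR
      simp only [N, mem_filter] at hl
      exact hRI' l hlR hl.1
    have hcard : (N I' (fun j => A j \ {x, y}) j).card + R.card ≤ (N I A j).card := by
      rw [← Finset.card_union_of_disjoint hdisj]
      exact Finset.card_le_card (Finset.union_subset hsub hRN)
    have hA : (A j).card = (A j \ {x, y}).card + 1 := by
      have h3 : (A j ∩ {x, y}).card = 1 := by
        rw [Finset.card_eq_one]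
        rcases hxyj with h | h
        · refine ⟨x, ?_⟩
          ext v
          simp only [mem_inter, mem_insert, mem_singleton]
          constructor
          · rintro ⟨hv, rfl | rfl⟩
            · rfl
            · exact absurd ⟨h, hv⟩ hjb
          · rintro rfl; exact ⟨h, Or.inl rfl⟩
        · refine ⟨y, ?_⟩
          ext v
          simp only [mem_inter, mem_insert, mem_singleton]
          constructor
          · rintro ⟨hv, rfl | rfl⟩
            · exact absurd ⟨hv, h⟩ hjb
            · rfl
          · rintro rfl; exact ⟨h, Or.inr rfl⟩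
      have h4 := Finset.card_sdiff_add_card_inter (A j) {x, y}
      omega
    apply hhit _ (N I A j).card _ (by omega)
    show Φ ((A j \ {x, y}).card + 1) (N I A j).card
    rw [← hA]
    exact hI j hjI
  · push Not at hxyj
    have hAj : A j \ {x, y} = A j := by
      ext v
      simp only [mem_sdiff, mem_insert, mem_singleton, not_or]
      constructor
      · exact fun h => h.1
      · intro h
        exact ⟨h, fun h1 => hxyj.1 (h1 ▸ h), fun h1 => hxyj.2 (h1 ▸ h)⟩
    apply hmono _ _ _ (Finset.card_le_card hsub)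
    show Φ (A j \ {x, y}).card (N I A j).card
    rw [hAj]
    exact hI j hjI

/-- The degrees along a set. -/
lemma sum_dg (I : Finset ι) (A : ι → Finset α) (i : ι) (hi : i ∈ I) :
    ∑ v ∈ A i, dg I A v = (A i).card + ∑ j ∈ N I A i, (A i ∩ A j).card := by
  have h1 : ∀ v ∈ A i, dg I A v = 1 + ∑ j ∈ N I A i, (if v ∈ A j then 1 else 0) := by
    intro v hv
    rw [dg, ← Finset.sum_filter, Finset.sum_const, smul_eq_mul, mul_one]
    have h2 : I.filter (fun j => v ∈ A j) =
        insert i ((N I A i).filter (fun j => v ∈ A j)) := by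
      ext j
      simp only [N, mem_filter, mem_insert]
      constructor
      · rintro ⟨hj, hvj⟩
        by_cases hji : j = i
        · exact Or.inl hji
        · exact Or.inr ⟨⟨hj, hji, v, by simp [hv, hvj]⟩, hvj⟩
      · rintro (rfl | ⟨⟨hj, _, _⟩, hvj⟩)
        · exact ⟨hi, hv⟩
        · exact ⟨hj, hvj⟩
    rw [h2, Finset.card_insert_of_notMem]
    · omega
    · simp [N]
  rw [Finset.sum_congr rfl h1, Finset.sum_add_distrib, Finset.sum_const, smul_eq_mul, mul_one,
    Finset.sum_comm]
  congr 1
  refine Finset.sum_congr rfl (fun j _ => ?_)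
  rw [← Finset.sum_filter, Finset.sum_const, smul_eq_mul, mul_one, Finset.filter_mem_eq_inter]

lemma dg_pos (I : Finset ι) (A : ι → Finset α) (i : ι) (hi : i ∈ I) (v : α) (hv : v ∈ A i) :
    1 ≤ dg I A v := Finset.card_pos.mpr ⟨i, Finset.mem_filter.mpr ⟨hi, hv⟩⟩

/-- The squares of the sizes of the traces, when no pair lies in `t` sets. -/
lemma sum_sq (t : ℕ) (ht : 2 ≤ t) (I : Finset ι) (A : ι → Finset α) (i : ι) (hi : i ∈ I)
    (hcod : ∀ x y, x ≠ y → (I.filter (fun j => x ∈ A j ∧ y ∈ A j)).card < t) :
    ∑ j ∈ N I A i, (A i ∩ A j).card ^ 2 ≤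
      ∑ j ∈ N I A i, (A i ∩ A j).card + (A i).card ^ 2 * (t - 2) := by
  have h1 : ∀ j, (A i ∩ A j).card ^ 2 =
      ∑ x ∈ A i, ∑ y ∈ A i, (if x ∈ A j ∧ y ∈ A j then 1 else 0) := by
    intro j
    have h2 : (A i ∩ A j).card = ∑ x ∈ A i, (if x ∈ A j then 1 else 0) := by
      rw [← Finset.sum_filter, Finset.sum_const, smul_eq_mul, mul_one,
        Finset.filter_mem_eq_inter]
    rw [sq, h2, Finset.sum_mul_sum]
    refine Finset.sum_congr rfl (fun x _ => Finset.sum_congr rfl (fun y _ => ?_))
    by_cases hx : x ∈ A j <;> by_cases hy : y ∈ A j <;> simp [hx, hy]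
  rw [Finset.sum_congr rfl (fun j _ => h1 j), Finset.sum_comm]
  have h3 : ∀ x ∈ A i, ∑ j ∈ N I A i, ∑ y ∈ A i, (if x ∈ A j ∧ y ∈ A j then 1 else 0) ≤
      ∑ j ∈ N I A i, (if x ∈ A j then 1 else 0) + (A i).card * (t - 2) := by
    intro x hx
    rw [Finset.sum_comm]
    have h4 : ∀ y ∈ A i, ∑ j ∈ N I A i, (if x ∈ A j ∧ y ∈ A j then 1 else 0) ≤
        (if y = x then ∑ j ∈ N I A i, (if x ∈ A j then 1 else 0) else 0) + (t - 2) := by
      intro y hy
      by_cases hyx : y = x
      · subst hyx
        simp
      · simp only [hyx, if_false, zero_add]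
        rw [← Finset.sum_filter, Finset.sum_const, smul_eq_mul, mul_one]
        have h5 : insert i ((N I A i).filter (fun j => x ∈ A j ∧ y ∈ A j)) ⊆
            I.filter (fun j => x ∈ A j ∧ y ∈ A j) := by
          intro l hl
          rw [Finset.mem_insert] at hl
          rw [Finset.mem_filter]
          rcases hl with rfl | hl
          · exact ⟨hi, hx, hy⟩
          · rw [Finset.mem_filter] at hl
            simp only [N, mem_filter] at hl
            exact ⟨hl.1.1, hl.2⟩
        have h6 := Finset.card_le_card h5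
        rw [Finset.card_insert_of_notMem (by simp [N])] at h6
        have h7 := hcod x y (Ne.symm hyx)
        omega
    calc ∑ y ∈ A i, ∑ j ∈ N I A i, (if x ∈ A j ∧ y ∈ A j then 1 else 0)
        ≤ ∑ y ∈ A i, ((if y = x then ∑ j ∈ N I A i, (if x ∈ A j then 1 else 0) else 0)
            + (t - 2)) := Finset.sum_le_sum h4
      _ = _ := by
          rw [Finset.sum_add_distrib, Finset.sum_ite_eq' (A i) x, if_pos hx, Finset.sum_const,
            smul_eq_mul]
  calc ∑ x ∈ A i, ∑ j ∈ N I A i, ∑ y ∈ A i, (if x ∈ A j ∧ y ∈ A j then 1 else 0)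
      ≤ ∑ x ∈ A i, (∑ j ∈ N I A i, (if x ∈ A j then 1 else 0) + (A i).card * (t - 2)) :=
        Finset.sum_le_sum h3
    _ = _ := by
        rw [Finset.sum_add_distrib, Finset.sum_const, smul_eq_mul, Finset.sum_comm]
        congr 1
        · refine Finset.sum_congr rfl (fun j _ => ?_)
          rw [← Finset.sum_filter, Finset.sum_const, smul_eq_mul, mul_one,
            Finset.filter_mem_eq_inter]
        · ring

/-- The inequality behind the choice of `t`. -/
lemma numeric (t a k S Q : ℕ) (ht : 2 ≤ t) (h0 : k + t ^ 3 ≤ t * a)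
    (h2 : Q ≤ S + a ^ 2 * (t - 2)) (h3 : S ^ 2 ≤ k * Q) : 2 * (a + S) ≤ a ^ 2 := by
  obtain ⟨s, rfl⟩ : ∃ s, t = s + 2 := ⟨t - 2, by omega⟩
  have ha : (s + 2) ^ 2 ≤ a := by
    have : (s + 2) * (s + 2) ^ 2 ≤ (s + 2) * a := by
      calc (s + 2) * (s + 2) ^ 2 = (s + 2) ^ 3 := by ring
        _ ≤ _ := by omega
    exact Nat.le_of_mul_le_mul_left this (by omega)
  have ha4 : 4 ≤ a := by nlinarith
  obtain ⟨u, rfl⟩ : ∃ u, a = u + 2 := ⟨a - 2, by omega⟩
  have h2' : Q ≤ S + (u + 2) ^ 2 * s := by simpa using h2
  clear h2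
  by_contra hno
  push Not at hno
  zify at h0 h2' h3 hno ha4 ha
  have hs : (0 : ℤ) ≤ s := by positivity
  have hu : (2 : ℤ) ≤ u := by linarith
  have hk0 : (0 : ℤ) ≤ k := by positivity
  have hS0 : (0 : ℤ) ≤ S := by positivity
  have hSlow : ((u : ℤ) + 2) * u < 2 * S := by nlinarith
  have hk1 : (k : ℤ) * (4 * s + 2) ≤ (u : ℤ) ^ 2 := by
    have h7 : (k : ℤ) * (4 * s + 2) ≤ ((s + 2) * (u + 2) - ((s : ℤ) + 2) ^ 3) * (4 * s + 2) := by
      apply mul_le_mul_of_nonneg_right _ (by linarith)
      linarith
    have h8 : (u : ℤ) ^ 2 - ((s + 2) * (u + 2) - ((s : ℤ) + 2) ^ 3) * (4 * s + 2) =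
        (u - (s + 2) * (2 * s + 1)) ^ 2 + (2 * s + 1) * ((s + 2) * (3 * s + 2)) := by ring
    have h9 : (0 : ℤ) ≤ (2 * s + 1) * ((s + 2) * (3 * s + 2)) := by positivity
    have h10 : (0 : ℤ) ≤ ((u : ℤ) - (s + 2) * (2 * s + 1)) ^ 2 := sq_nonneg _
    linarith
  have h3' : (S : ℤ) ^ 2 ≤ k * (S + (u + 2) ^ 2 * s) :=
    h3.trans (mul_le_mul_of_nonneg_left h2' hk0)
  have hSpos : (0 : ℤ) < S := by nlinarith
  have h10 : (u : ℤ) ^ 2 * S < 2 * (S : ℤ) ^ 2 := by
    have : (u : ℤ) ^ 2 < 2 * S := by nlinarith
    nlinarith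
  have h11 : (((u : ℤ) + 2) * u) ^ 2 ≤ (2 * (S : ℤ)) ^ 2 :=
    pow_le_pow_left₀ (by positivity) (le_of_lt hSlow) 2
  have hpos : (0 : ℤ) ≤ S + (u + 2) ^ 2 * s := by positivity
  have h12 : (4 * (s : ℤ) + 2) * (S : ℤ) ^ 2 ≤ (u : ℤ) ^ 2 * (S + (u + 2) ^ 2 * s) := by
    calc (4 * (s : ℤ) + 2) * (S : ℤ) ^ 2
        ≤ (4 * (s : ℤ) + 2) * (k * (S + (u + 2) ^ 2 * s)) :=
          mul_le_mul_of_nonneg_left h3' (by linarith)
      _ = (k * (4 * s + 2)) * (S + (u + 2) ^ 2 * s) := by ring
      _ ≤ _ := mul_le_mul_of_nonneg_right hk1 hpos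
  have h13 : (s : ℤ) * (((u : ℤ) + 2) * u) ^ 2 ≤ (s : ℤ) * (2 * (S : ℤ)) ^ 2 :=
    mul_le_mul_of_nonneg_left h11 hs
  have h14 : (u : ℤ) ^ 2 * (S + (u + 2) ^ 2 * s) =
      (u : ℤ) ^ 2 * S + s * (((u : ℤ) + 2) * u) ^ 2 := by ring
  have h15 : (s : ℤ) * (2 * (S : ℤ)) ^ 2 = 4 * s * (S : ℤ) ^ 2 := by ring
  have h16 : (4 * (s : ℤ) + 2) * (S : ℤ) ^ 2 = 4 * s * (S : ℤ) ^ 2 + 2 * (S : ℤ) ^ 2 := by ring
  linarith

lemma titu (T : Finset α) (d : α → ℕ) (hd : ∀ v ∈ T, 1 ≤ d v) (s : ℕ) (hs : ∑ v ∈ T, d v = s)
    (h : 2 * s ≤ T.card ^ 2) (hpos : 0 < s) : (2 : ℚ) ≤ ∑ v ∈ T, 1 / (d v : ℚ) := by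
  have h5 := Finset.sum_sq_le_sum_mul_sum_of_sq_le_mul T (r := fun _ => (1 : ℚ))
    (f := fun v => (d v : ℚ)) (g := fun v => 1 / (d v : ℚ))
    (fun v _ => by positivity) (fun v _ => by positivity)
    (fun v hv => by
      have h6 : (0 : ℚ) < d v := by exact_mod_cast hd v hv
      rw [mul_one_div, div_self h6.ne']
      norm_num)
  rw [Finset.sum_const, nsmul_eq_mul, mul_one, ← Nat.cast_sum, hs] at h5
  have h7 : (2 : ℚ) * s ≤ (T.card : ℚ) ^ 2 := by exact_mod_cast h
  have h8 : (0 : ℚ) < s := by exact_mod_cast hpos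
  have h9 : (s : ℚ) * 2 ≤ s * ∑ v ∈ T, 1 / (d v : ℚ) := by linarith
  exact le_of_mul_le_mul_left h9 h8

/-- The pairing theorem. -/
theorem pairing (t : ℕ) (ht : 2 ≤ t) (I : Finset ι) (A : ι → Finset α)
    (h : ∀ i ∈ I, (N I A i).card + t ^ 3 ≤ t * (A i).card) : Paired I A := by
  refine merge t (by omega) (fun a k => k + t ^ 3 ≤ t * a) ?_ ?_ ?_ I.card I A rfl h
  · intro a k k' hk h; omega
  · intro a k k' hk h
    have : t * (a + 1) = t * a + t := by ring
    omega
  · intro I A hI hcod
    apply hall
    intro i hi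
    have h3 : (∑ j ∈ N I A i, (A i ∩ A j).card) ^ 2 ≤
        (N I A i).card * ∑ j ∈ N I A i, (A i ∩ A j).card ^ 2 := sq_sum_le_card_mul_sum_sq
    have h4 := numeric t (A i).card (N I A i).card _ _ ht (hI i hi)
      (sum_sq t ht I A i hi hcod) h3
    have hne : 0 < (A i).card := by
      rcases Nat.eq_zero_or_pos (A i).card with h0 | h0
      · have h5 := hI i hi
        rw [h0, mul_zero] at h5
        have h6 : 0 < t ^ 3 := by positivity
        omega
      · exact h0
    exact titu (A i) (dg I A) (dg_pos I A i hi) _ (sum_dg I A i hi) h4 (by omega)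

/-- The board of `F`: the union of its members. -/
def board (F : Finset (Finset α)) : Finset α := F.biUnion id

/-- Alternating game on the board `V`: `SecondForces V goal t X Y` says that in the position where the
first player owns `X` and the second player owns `Y`, and the first player is to move if `t = true`
and the second player if `t = false`, the second player can force that when the board is
exhausted the final sets `X` (first player) and `Y` (second player) satisfy `goal X Y`. -/
inductive SecondForces (V : Finset α) (goal : Finset α → Finset α → Prop) :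
    Bool → Finset α → Finset α → Prop
  | over (t : Bool) (X Y : Finset α) (h : V ⊆ X ∪ Y) (hg : goal X Y) : SecondForces V goal t X Y
  | first (X Y : Finset α) (hne : (V \ (X ∪ Y)).Nonempty)
      (h : ∀ x ∈ V \ (X ∪ Y), SecondForces V goal false (insert x X) Y) :
      SecondForces V goal true X Y
  | second (X Y : Finset α) (y : α) (hy : y ∈ V \ (X ∪ Y))
      (h : SecondForces V goal true X (insert y Y)) : SecondForces V goal false X Y

/-- The Chooser-Picker game on the board `V`: Picker can force, from the position where Chooser owns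
`C` and Picker owns `P`, that the final sets satisfy `goal C P`. -/
inductive PickerForces (V : Finset α) (goal : Finset α → Finset α → Prop) :
    Finset α → Finset α → Prop
  | over (C P : Finset α) (h : V ⊆ C ∪ P) (hg : goal C P) : PickerForces V goal C P
  | last (C P : Finset α) (x : α) (h : V \ (C ∪ P) = {x}) (hg : goal (insert x C) P) :
      PickerForces V goal C P
  | offer (C P : Finset α) (x y : α) (hx : x ∈ V \ (C ∪ P)) (hy : y ∈ V \ (C ∪ P)) (hxy : x ≠ y)
      (h1 : PickerForces V goal (insert x C) (insert y P))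
      (h2 : PickerForces V goal (insert y C) (insert x P)) : PickerForces V goal C P

/-- Breaker (the second player) has a Strong Draw in the Weak game on `F`. -/
def BreakerDraws (F : Finset (Finset α)) : Prop :=
  SecondForces (board F) (fun _ Y => ∀ A ∈ F, ∃ v ∈ A, v ∈ Y) true ∅ ∅

/-- Avoider (the second player) has a Strong Draw in the Reverse Weak game on `F`. -/
def AvoiderDraws (F : Finset (Finset α)) : Prop :=
  SecondForces (board F) (fun X _ => ∀ A ∈ F, ∃ v ∈ A, v ∈ X) true ∅ ∅

/-- Picker has a Strong Draw in the Chooser-Picker game on `F`. -/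
def PickerDraws (F : Finset (Finset α)) : Prop :=
  PickerForces (board F) (fun _ P => ∀ A ∈ F, ∃ v ∈ A, v ∈ P) ∅ ∅

lemma mem_free (V X Y : Finset α) (v : α) : v ∈ V \ (X ∪ Y) ↔ v ∈ V ∧ v ∉ X ∧ v ∉ Y := by
  simp only [mem_sdiff, mem_union, not_or]

/-- With a pairing, the second player can force all pairs to be split. -/
theorem second_of_inv (V : Finset α) (goal : Finset α → Finset α → Prop) :
    ∀ (m : ℕ) (X Y : Finset α) (σ : α → α), (V \ (X ∪ Y)).card = m →
    (∀ v, σ (σ v) = v) → (∀ v ∈ V \ (X ∪ Y), σ v ∈ V \ (X ∪ Y)) →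
    (∀ X' Y' : Finset α, X ⊆ X' → Y ⊆ Y' →
      (∀ v ∈ V \ (X ∪ Y), σ v ≠ v → (v ∈ X' ∧ σ v ∈ Y') ∨ (v ∈ Y' ∧ σ v ∈ X')) →
      (∀ v ∈ V \ (X ∪ Y), σ v = v → (∀ w ∈ V \ (X ∪ Y), σ w = w → w = v) → v ∈ X') →
      goal X' Y') →
    SecondForces V goal true X Y := by
  intro m
  induction m using Nat.strong_induction_on with
  | _ m ih =>
  intro X Y σ hm hinv hmap hgoal
  rcases (V \ (X ∪ Y)).eq_empty_or_nonempty with hR | hR
  · apply SecondForces.over
    · exact Finset.sdiff_eq_empty_iff_subset.mp hR
    · apply hgoal X Y (Finset.Subset.refl _) (Finset.Subset.refl _)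
      · intro v hv; rw [hR] at hv; simp at hv
      · intro v hv; rw [hR] at hv; simp at hv
  · apply SecondForces.first X Y hR
    intro x hx
    have hsmall : ∀ y, y ∈ V \ (X ∪ Y) → y ≠ x →
        (V \ (insert x X ∪ insert y Y)).card < m := by
      intro y hy hyx
      rw [← hm]
      apply Finset.card_lt_card
      refine ⟨?_, ?_⟩
      · intro v hv
        rw [mem_free] at hv ⊢
        simp only [mem_insert, not_or] at hv
        exact ⟨hv.1, hv.2.1.2, hv.2.2.2⟩
      · intro h
        have := h hx
        rw [mem_free] at this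
        exact this.2.1 (Finset.mem_insert_self _ _)
    have hR' : ∀ y v, v ∈ V \ (insert x X ∪ insert y Y) ↔ v ∈ V \ (X ∪ Y) ∧ v ≠ x ∧ v ≠ y := by
      intro y v
      rw [mem_free, mem_free]
      simp only [mem_insert, not_or]
      tauto
    have hyfree : ∀ y, y ∈ V \ (X ∪ Y) → y ≠ x → y ∈ V \ (insert x X ∪ Y) := by
      intro y hy hyx
      rw [mem_free] at hy ⊢
      simp only [mem_insert, not_or]
      exact ⟨hy.1, ⟨hyx, hy.2.1⟩, hy.2.2⟩
    by_cases hσx : σ x = x
    · by_cases hne : ∃ y ∈ V \ (X ∪ Y), y ≠ x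
      · by_cases hfix : ∃ y ∈ V \ (X ∪ Y), y ≠ x ∧ σ y = y
        · obtain ⟨y, hy, hyx, hσy⟩ := hfix
          apply SecondForces.second _ _ y (hyfree y hy hyx)
          refine ih _ (hsmall y hy hyx) _ _ σ rfl hinv ?_ ?_
          · intro v hv
            rw [hR'] at hv ⊢
            refine ⟨hmap v hv.1, ?_, ?_⟩
            · intro h; apply hv.2.1; rw [← hinv v, h, hσx]
            · intro h; apply hv.2.2; rw [← hinv v, h, hσy]
          · intro X' Y' hX hY hs hu
            apply hgoal X' Y' ((Finset.subset_insert _ _).trans hX)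
              ((Finset.subset_insert _ _).trans hY)
            · intro v hv hσv
              apply hs v _ hσv
              rw [hR']
              exact ⟨hv, fun h => hσv (h ▸ hσx), fun h => hσv (h ▸ hσy)⟩
            · intro v hv hσv huniq
              have h1 := huniq x hx hσx
              have h2 := huniq y hy hσy
              exact absurd (h2.trans h1.symm) hyx
        · push Not at hfix
          obtain ⟨y, hy, hyx⟩ := hne
          have hσy := hfix y hy hyx
          have hσyx : σ y ≠ x := by
            intro h; apply hyx; rw [← hinv y, h, hσx]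
          apply SecondForces.second _ _ y (hyfree y hy hyx)
          refine ih _ (hsmall y hy hyx) _ _ (fun v => if v = y ∨ v = σ y then v else σ v)
            rfl ?_ ?_ ?_
          · intro v
            by_cases hv : v = y ∨ v = σ y
            · simp only [hv, if_true]
            · have hv2 : ¬ (σ v = y ∨ σ v = σ y) := by
                rintro (h | h)
                · apply hv; right; rw [← h, hinv]
                · apply hv; left; rw [← hinv v, h, hinv]
              simp only [hv, if_false, hv2, hinv]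
          · intro v hv
            rw [hR'] at hv
            by_cases hv' : v = y ∨ v = σ y
            · simp only [hv', if_true]
              rw [hR']; exact hv
            · simp only [hv', if_false]
              rw [hR']
              refine ⟨hmap v hv.1, ?_, ?_⟩
              · intro h; apply hv.2.1; rw [← hinv v, h, hσx]
              · intro h; apply hv'; right; rw [← h, hinv]
          · intro X' Y' hX hY hs hu
            have hyY : y ∈ Y' := hY (Finset.mem_insert_self _ _)
            have hxX : x ∈ X' := hX (Finset.mem_insert_self _ _)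
            have hσyX : σ y ∈ X' := by
              apply hu (σ y)
              · rw [hR']; exact ⟨hmap y hy, hσyx, hσy⟩
              · simp
              · intro w hw hww
                rw [hR'] at hw
                by_cases hw' : w = y ∨ w = σ y
                · rcases hw' with h | h
                  · exact absurd h hw.2.2
                  · exact h
                · simp only [hw', if_false] at hww
                  exact absurd hww (hfix w hw.1 hw.2.1)
            apply hgoal X' Y' ((Finset.subset_insert _ _).trans hX)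
              ((Finset.subset_insert _ _).trans hY)
            · intro v hv hσv
              by_cases hvy : v = y
              · subst hvy; exact Or.inr ⟨hyY, hσyX⟩
              · by_cases hvy2 : v = σ y
                · subst hvy2
                  left
                  rw [hinv]
                  exact ⟨hσyX, hyY⟩
                · have h3 := hs v (by rw [hR']; exact ⟨hv, fun h => hσv (h ▸ hσx), hvy⟩)
                  simp only [hvy, hvy2, or_self, if_false] at h3
                  exact h3 hσv
            · intro v hv hσv huniq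
              have h1 := huniq x hx hσx
              exact h1 ▸ hxX
      · push Not at hne
        apply SecondForces.over
        · intro v hv
          by_contra hno
          simp only [mem_union, mem_insert, not_or] at hno
          have := hne v (by rw [mem_free]; exact ⟨hv, hno.1.2, hno.2⟩)
          exact hno.1.1 this
        · apply hgoal _ _ (Finset.subset_insert _ _) (Finset.Subset.refl _)
          · intro v hv hσv
            rw [hne v hv] at hσv
            exact absurd hσx hσv
          · intro v hv _ _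
            rw [hne v hv]
            exact Finset.mem_insert_self _ _
    · apply SecondForces.second _ _ (σ x) (hyfree _ (hmap x hx) hσx)
      refine ih _ (hsmall _ (hmap x hx) hσx) _ _ σ rfl hinv ?_ ?_
      · intro v hv
        rw [hR'] at hv ⊢
        refine ⟨hmap v hv.1, ?_, ?_⟩
        · intro h; apply hv.2.2; rw [← h, hinv]
        · intro h; apply hv.2.1; rw [← hinv v, h, hinv]
      · intro X' Y' hX hY hs hu
        have hxX : x ∈ X' := hX (Finset.mem_insert_self _ _)
        have hσY : σ x ∈ Y' := hY (Finset.mem_insert_self _ _)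
        apply hgoal X' Y' ((Finset.subset_insert _ _).trans hX)
          ((Finset.subset_insert _ _).trans hY)
        · intro v hv hσv
          by_cases hvx : v = x
          · subst hvx; exact Or.inl ⟨hxX, hσY⟩
          · by_cases hvx2 : v = σ x
            · subst hvx2
              right
              rw [hinv]
              exact ⟨hσY, hxX⟩
            · exact hs v (by rw [hR']; exact ⟨hv, hvx, hvx2⟩) hσv
        · intro v hv hσv huniq
          apply hu v _ hσv
          · intro w hw hww
            rw [hR'] at hw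
            exact huniq w hw.1 hww
          · rw [hR']
            refine ⟨hv, ?_, ?_⟩
            · rintro rfl; exact hσx hσv
            · rintro rfl; apply hσx; rw [hinv] at hσv; exact hσv.symm

/-- With a pairing, Picker gets a point of every pair. -/
theorem picker_of_inv (V : Finset α) (goal : Finset α → Finset α → Prop) :
    ∀ (m : ℕ) (C P : Finset α) (σ : α → α), (V \ (C ∪ P)).card = m →
    (∀ v, σ (σ v) = v) → (∀ v ∈ V \ (C ∪ P), σ v ∈ V \ (C ∪ P)) →
    (∀ C' P' : Finset α, C ⊆ C' → P ⊆ P' →
      (∀ v ∈ V \ (C ∪ P), σ v ≠ v → v ∈ P' ∨ σ v ∈ P') → goal C' P') →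
    PickerForces V goal C P := by
  intro m
  induction m using Nat.strong_induction_on with
  | _ m ih =>
  intro C P σ hm hinv hmap hgoal
  have hR' : ∀ x y v, v ∈ V \ (insert x C ∪ insert y P) ↔ v ∈ V \ (C ∪ P) ∧ v ≠ x ∧ v ≠ y := by
    intro x y v
    rw [mem_free, mem_free]
    simp only [mem_insert, not_or]
    tauto
  have hsmall : ∀ x y, x ∈ V \ (C ∪ P) → (V \ (insert x C ∪ insert y P)).card < m := by
    intro x y hx
    rw [← hm]
    apply Finset.card_lt_card
    refine ⟨fun v hv => ((hR' x y v).mp hv).1, fun h => ((hR' x y x).mp (h hx)).2.1 rfl⟩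
  by_cases hmv : ∃ v ∈ V \ (C ∪ P), σ v ≠ v
  · obtain ⟨v, hv, hσv⟩ := hmv
    have step : ∀ x y, (x = v ∧ y = σ v) ∨ (x = σ v ∧ y = v) → x ∈ V \ (C ∪ P) →
        PickerForces V goal (insert x C) (insert y P) := by
      intro x y hxy hx
      have hxy2 : σ x = y ∧ σ y = x := by
        rcases hxy with ⟨rfl, rfl⟩ | ⟨rfl, rfl⟩
        · exact ⟨rfl, hinv _⟩
        · exact ⟨hinv _, rfl⟩
      refine ih _ (hsmall x y hx) _ _ σ rfl hinv ?_ ?_
      · intro w hw
        rw [hR'] at hw ⊢
        refine ⟨hmap w hw.1, ?_, ?_⟩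
        · intro h; apply hw.2.2; rw [← hinv w, h, hxy2.1]
        · intro h; apply hw.2.1; rw [← hinv w, h, hxy2.2]
      · intro C' P' hC hP hs
        have hyP : y ∈ P' := hP (Finset.mem_insert_self _ _)
        apply hgoal C' P' ((Finset.subset_insert _ _).trans hC)
          ((Finset.subset_insert _ _).trans hP)
        intro w hw hσw
        by_cases hwx : w = x
        · right; rw [hwx, hxy2.1]; exact hyP
        · by_cases hwy : w = y
          · left; rw [hwy]; exact hyP
          · exact hs w (by rw [hR']; exact ⟨hw, hwx, hwy⟩) hσw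
    exact PickerForces.offer C P v (σ v) hv (hmap v hv) hσv.symm
      (step v (σ v) (Or.inl ⟨rfl, rfl⟩) hv) (step (σ v) v (Or.inr ⟨rfl, rfl⟩) (hmap v hv))
  · push Not at hmv
    rcases (V \ (C ∪ P)).eq_empty_or_nonempty with hR | ⟨x, hx⟩
    · apply PickerForces.over
      · exact Finset.sdiff_eq_empty_iff_subset.mp hR
      · apply hgoal C P (Finset.Subset.refl _) (Finset.Subset.refl _)
        intro v hv hσv
        exact absurd (hmv v hv) hσv
    · by_cases hne : ∃ y ∈ V \ (C ∪ P), y ≠ x
      · obtain ⟨y, hy, hyx⟩ := hne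
        have step : ∀ a b, a ∈ V \ (C ∪ P) → b ∈ V \ (C ∪ P) →
            PickerForces V goal (insert a C) (insert b P) := by
          intro a b ha hb
          refine ih _ (hsmall a b ha) _ _ σ rfl hinv ?_ ?_
          · intro w hw
            have hw1 := (hR' a b w).mp hw
            rw [hmv w hw1.1]
            exact hw
          · intro C' P' hC hP hs
            apply hgoal C' P' ((Finset.subset_insert _ _).trans hC)
              ((Finset.subset_insert _ _).trans hP)
            intro w hw hσw
            exact absurd (hmv w hw) hσw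
        exact PickerForces.offer C P x y hx hy hyx.symm (step x y hx hy) (step y x hy hx)
      · push Not at hne
        apply PickerForces.last C P x
        · ext v
          rw [Finset.mem_singleton]
          constructor
          · exact fun h => hne v h
          · rintro rfl; exact hx
        · apply hgoal _ _ (Finset.subset_insert _ _) (Finset.Subset.refl _)
          intro v hv hσv
          exact absurd (hmv v hv) hσv

theorem draws_of_paired (F : Finset (Finset α)) (h : Paired F id) :
    BreakerDraws F ∧ AvoiderDraws F ∧ PickerDraws F := by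
  obtain ⟨σ, h1, h2, h3⟩ := h
  have hmap : ∀ v ∈ board F \ (∅ ∪ ∅ : Finset α), σ v ∈ board F \ (∅ ∪ ∅ : Finset α) := by
    intro v hv
    simp only [Finset.union_empty, Finset.sdiff_empty, board, Finset.mem_biUnion, id] at hv ⊢
    by_contra hno
    push Not at hno
    have h4 := h2 (σ v) hno
    rw [h1] at h4
    obtain ⟨A, hA, hvA⟩ := hv
    exact hno A hA (h4 ▸ hvA)
  have hmem : ∀ A ∈ F, ∀ v ∈ A, v ∈ board F \ (∅ ∪ ∅ : Finset α) := by
    intro A hA v hv
    simp only [Finset.union_empty, Finset.sdiff_empty, board, Finset.mem_biUnion, id]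
    exact ⟨A, hA, hv⟩
  refine ⟨?_, ?_, ?_⟩
  · apply second_of_inv _ _ _ ∅ ∅ σ rfl h1 hmap
    intro X' Y' _ _ hs _ A hA
    obtain ⟨v, hv, hσv, hne⟩ := h3 A hA
    rcases hs v (hmem A hA v hv) hne with h | h
    · exact ⟨σ v, hσv, h.2⟩
    · exact ⟨v, hv, h.1⟩
  · apply second_of_inv _ _ _ ∅ ∅ σ rfl h1 hmap
    intro X' Y' _ _ hs _ A hA
    obtain ⟨v, hv, hσv, hne⟩ := h3 A hA
    rcases hs v (hmem A hA v hv) hne with h | h
    · exact ⟨v, hv, h.1⟩
    · exact ⟨σ v, hσv, h.2⟩
  · apply picker_of_inv _ _ _ ∅ ∅ σ rfl h1 hmap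
    intro C' P' _ _ hs A hA
    obtain ⟨v, hv, hσv, hne⟩ := h3 A hA
    rcases hs v (hmem A hA v hv) hne with h | h
    · exact ⟨v, hv, h⟩
    · exact ⟨σ v, hσv, h⟩

/-- **Theorem.** Let `t ≥ 2` and let `F` be a finite `n`-uniform hypergraph each member of which meets
at most `t (n - t ^ 2)` other members. Then Breaker, Avoider and Picker have a Strong Draw in the
three games. -/
theorem result (α : Type) [DecidableEq α] (n t : ℕ) (ht : 2 ≤ t) (F : Finset (Finset α))
    (hF : ∀ A ∈ F, A.card = n)
    (hdeg : ∀ A ∈ F, (F.filter (fun B => B ≠ A ∧ (A ∩ B).Nonempty)).card + t ^ 3 ≤ t * n) :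
    BreakerDraws F ∧ AvoiderDraws F ∧ PickerDraws F := by
  apply draws_of_paired
  apply pairing t ht F id
  intro A hA
  rw [id, hF A hA]
  exact hdeg A hA

end Pool.Agent.Results.MP_289501_co.SuperlinearNeighborhoods
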